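import Pool.Agent.Helper65.BR.PGoals

/-!
# Packet BR-PLSK: the acceptance function of the parallel machines is computed in linear space
-/

namespace Pool.Agent.Helper86.BR

open Pool.Agent.Helper65.LinSpace Pool.Agent.Helper78.Mpc Finset
open Pool.Agent.Helper65.RT (qT CT)
open Pool.Agent.Helper65.BR
open Pool.Agent.Helper65

theorem pl_rt (hP : PPAR_stmt) (hL : PLSP_stmt) (s : RT.Sim) {α : Type} [Ctx α]
    {e x y T p : α → ℕ} (he : LS e) (hx : LS x) (hy : LS y) (hT : LS T) (hp : LS p) :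
    RT.LSM (fun z => (prp (e z) (x z) (y z) (T z) (p z)).rt) fun z => CT (x z) := by
  refine hL he hx hy hT hp fun z => ?_
  obtain ⟨h1, h2, _⟩ := hP (e z) (x z) (y z) (T z) (p z)
  exact s.nv _ _ h2 h1

theorem pl_pow (hP : PPAR_stmt) (hL : PLSP_stmt) (s : RT.Sim) {α : Type} [Ctx α]
    {e x y T : α → ℕ} (he : LS e) (hx : LS x) (hy : LS y) (hT : LS T) :
    LS (fun z => 2 ^ (bT (Nat.log 2 (x z)) (T z) 2 + 1)) := by
  have h := pl_rt (α := α) hP hL s he hx hy hT (LS.const 0)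
  refine LS.pow_of_le (f := fun _ => 2) (LS.const 2) h.σ h.bd fun z => ?_
  refine le_trans (Nat.pow_le_pow_right (by norm_num) ?_) (h.hS z)
  exact Nat.le_mul_of_pos_right _ (h.ok z).hE

theorem pl_sim (hP : PPAR_stmt) (hL : PLSP_stmt) (s : RT.Sim) {α : Type} [Ctx α]
    {e x y T p : α → ℕ} (he : LS e) (hx : LS x) (hy : LS y) (hT : LS T) (hp : LS p) :
    LS (fun z => s.sim (Nat.log 2 (x z)) (prp (e z) (x z) (y z) (T z) (p z)).rt) :=
  s.ls (m := fun z => (prp (e z) (x z) (y z) (T z) (p z)).rt) hx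
    (pl_rt hP hL s he hx hy hT hp) fun z => (hP _ _ _ _ _).1

/-- Packet BR-PLSK. -/
theorem plsk (hP : PPAR_stmt) (hL : PLSP_stmt) : PLSK_stmt := by
  intro s
  constructor
  · unfold accP
    refine LS.sum_le (N := fun z : ℕ × ℕ × ℕ × ℕ => 2 ^ (bT (Nat.log 2 z.2.1) z.2.2.2 2 + 1))
      (B := fun _ => 1)
      (f := fun z p => lt01 0 p * accN (s.sim (Nat.log 2 z.2.1)
        (prp z.1 z.2.1 z.2.2.1 z.2.2.2 p).rt)) ?_ ?_ (LS.const 1)
      fun z p _ => ?_
    · have h := pl_sim (α := (ℕ × ℕ × ℕ × ℕ) × ℕ) hP hL s (e := fun z => z.1.1)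
        (x := fun z => z.1.2.1) (y := fun z => z.1.2.2.1) (T := fun z => z.1.2.2.2)
        (p := fun z => z.2) (by fun_prop) (by fun_prop) (by fun_prop) (by fun_prop) (by fun_prop)
      refine LS.mul (LS.lt01 (LS.const 0) LS.snd) ?_
      unfold accN
      fun_prop
    · exact pl_pow hP hL s (e := fun z : ℕ × ℕ × ℕ × ℕ => z.1) (x := fun z => z.2.1)
        (y := fun z => z.2.2.1) (T := fun z => z.2.2.2) (by fun_prop) (by fun_prop)
        (by fun_prop) (by fun_prop)
    · have h3 : lt01 0 p ≤ 1 := by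
        unfold lt01
        split_ifs <;> omega
      exact (Nat.mul_le_mul h3 (accN_le _)).trans (by norm_num)
  · unfold NP
    fun_prop

end Pool.Agent.Helper86.BR
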