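import Pool.Agent.Helper65.BR.Goals

/-!
# Machines with a memory of blocks: the parallel machine simulates the machine (packet BR-TRU)
-/

set_option autoImplicit false

namespace Pool.Agent.Helper86.BR

open Pool.Agent.Helper65.LinSpace Pool.Agent.Helper78.Mpc Finset
open Pool.Agent.Helper65.BR


variable {m : Mach}

theorem pow_a_pos (m : Mach) : 0 < 2 ^ m.a := by positivity

theorem one_lt_pow (h : m.Ok) : 1 < 2 ^ m.a := Nat.one_lt_two_pow h.ha.ne'

theorem conf_fst_lt (h : m.Ok) (t : ℕ) : (m.conf t).1 < 2 ^ m.s := by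
  cases t with
  | zero => exact h.hq0
  | succ t => exact h.hN _ _

theorem conf_snd_lt (h : m.Ok) (t x : ℕ) : (m.conf t).2 x < 2 ^ m.a := by
  cases t with
  | zero => exact h.hM0 _
  | succ t => exact h.hW _ _ _ _

theorem pow_s_le (h : m.Ok) : 2 ^ m.s ≤ (2 ^ m.a) ^ m.P := by
  rw [← pow_mul]
  apply Nat.pow_le_pow_right (by norm_num)
  unfold Mach.P
  have h1 := Nat.lt_mul_div_succ m.s h.ha
  exact h1.le

theorem P_pos (m : Mach) : 0 < m.P := Nat.succ_pos _

theorem root_lt (m : Mach) : 2 * m.P + 1 < 2 ^ m.σ := by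
  unfold Mach.σ
  have h1 : m.P < 2 ^ (Nat.log 2 m.P + 1) := Nat.lt_pow_succ_log_self (by norm_num) _
  have h2 : 2 ^ (m.ν + Nat.log 2 m.P + 2) = 2 ^ m.ν * (2 ^ (Nat.log 2 m.P + 1) * 2) := by
    rw [show m.ν + Nat.log 2 m.P + 2 = m.ν + ((Nat.log 2 m.P + 1) + 1) by ring, pow_add, pow_succ]
  have h3 : 1 ≤ 2 ^ m.ν := Nat.one_le_two_pow
  rw [h2]
  calc 2 * m.P + 1 < 2 ^ (Nat.log 2 m.P + 1) * 2 := by omega
    _ ≤ 2 ^ m.ν * (2 ^ (Nat.log 2 m.P + 1) * 2) := Nat.le_mul_of_pos_left _ h3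

theorem blk_lt (m : Mach) {y : ℕ} (hy : y < 2 ^ m.ν) : 2 * y < 2 ^ m.σ := by
  unfold Mach.σ
  have h2 : 2 ^ (m.ν + Nat.log 2 m.P + 2) = 2 ^ m.ν * (2 ^ (Nat.log 2 m.P + 1) * 2) := by
    rw [show m.ν + Nat.log 2 m.P + 2 = m.ν + ((Nat.log 2 m.P + 1) + 1) by ring, pow_add, pow_succ]
  have h3 : 1 ≤ 2 ^ (Nat.log 2 m.P + 1) := Nat.one_le_two_pow
  rw [h2]
  calc 2 * y < 2 ^ m.ν * 2 := by omega
    _ ≤ 2 ^ m.ν * (2 ^ (Nat.log 2 m.P + 1) * 2) :=
        Nat.mul_le_mul_left _ (Nat.le_mul_of_pos_left _ h3)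

theorem ok (m : Mach) (h : m.Ok) : m.rt.Ok where
  hσ := Nat.succ_pos _
  ha := h.ha
  hb := h.ha
  hE := h.hE
  hG := h.hG
  hq _ _ _ := Nat.mod_lt _ (Nat.two_pow_pos _)
  hg _ _ _ _ := Nat.mod_lt _ (Nat.two_pow_pos _)
  ho _ _ := Nat.mod_lt _ (Nat.two_pow_pos _)
  ht0 _ := Nat.mod_lt _ (Nat.two_pow_pos _)
  hroot := root_lt m

/-! ### values -/

theorem val_even (q c : ℕ) {x : ℕ} (hx : x % 2 = 0) : m.val x q c = c := by
  unfold Mach.val ifz
  rw [if_pos hx]

theorem val_odd (q c : ℕ) {j : ℕ} (hj : j < m.P) : m.val (2 * j + 1) q c = dig (2 ^ m.a) q j := by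
  unfold Mach.val
  have h1 : (2 * j + 1) % 2 = 1 := by omega
  have h2 : (2 * j + 1) / 2 = j := by omega
  rw [h1, h2]
  have h3 : lt01 j m.P = 1 := if_pos hj
  rw [h3]
  rfl

theorem val_root (m : Mach) (q c : ℕ) : m.val (2 * m.P + 1) q c = accN q := by
  unfold Mach.val
  have h1 : (2 * m.P + 1) % 2 = 1 := by omega
  have h2 : (2 * m.P + 1) / 2 = m.P := by omega
  rw [h1, h2]
  have h3 : lt01 m.P m.P = 0 := if_neg (lt_irrefl _)
  rw [h3]
  rfl

theorem val_lt (h : m.Ok) (x q : ℕ) {c : ℕ} (hc : c < 2 ^ m.a) : m.val x q c < 2 ^ m.a := by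
  unfold Mach.val ifz
  split_ifs
  · exact hc
  · exact (accN_le q).trans_lt (one_lt_pow h)
  · exact dig_lt (pow_a_pos m) _ _

theorem val_odd_indep (q c c' : ℕ) {x : ℕ} (hx : x % 2 ≠ 0) : m.val x q c = m.val x q c' := by
  unfold Mach.val ifz
  rw [if_neg hx, if_neg hx]

/-! ### replay -/

/-- the value which is read in the step `t0 + t` -/
def rv (m : Mach) (t0 t : ℕ) : ℕ := (m.conf (t0 + t)).2 (m.A (m.conf (t0 + t)).1)

theorem conf_succ1 (m : Mach) (t0 t : ℕ) :
    (m.conf (t0 + (t + 1))).1 = m.N (m.conf (t0 + t)).1 (rv m t0 t) := rfl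

theorem conf_succ2 (m : Mach) (t0 t x : ℕ) :
    (m.conf (t0 + (t + 1))).2 x = m.W (m.conf (t0 + t)).1 (rv m t0 t) x ((m.conf (t0 + t)).2 x) :=
  rfl

theorem replay {t0 Z n : ℕ} (h0 : Z % (2 ^ m.a) ^ m.P = (m.conf t0).1)
    (hv : ∀ t < n, m.vz Z t = rv m t0 t) : ∀ t ≤ n, m.st Z t = (m.conf (t0 + t)).1 ∧
      ∀ y, m.ct Z y ((m.conf t0).2 y) t = (m.conf (t0 + t)).2 y := by
  intro t
  induction t with
  | zero =>
    intro _
    exact ⟨h0, fun y => rfl⟩
  | succ t ih =>
    intro ht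
    obtain ⟨h1, h2⟩ := ih (by omega)
    have h3 := hv t (by omega)
    refine ⟨?_, fun y => ?_⟩
    · show m.N (m.st Z t) (m.vz Z t) = _
      rw [h1, h3, conf_succ1]
    · show m.W (m.st Z t) (m.vz Z t) y (m.ct Z y ((m.conf t0).2 y) t) = _
      rw [h1, h3, h2, conf_succ2]

/-- the right digests; `w` is the own value -/
def td (m : Mach) (t0 w e : ℕ) : ℕ :=
  if e < m.P then dig (2 ^ m.a) (m.conf t0).1 e else if e = m.P then w else rv m t0 (e - m.P - 1)

theorem td_lt (h : m.Ok) {t0 w : ℕ} (hw : w < 2 ^ m.a) (e : ℕ) : td m t0 w e < 2 ^ m.a := by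
  unfold td
  split_ifs
  · exact dig_lt (pow_a_pos m) _ _
  · exact hw
  · exact conf_snd_lt h _ _

theorem tab_mod (h : m.Ok) {t0 w e : ℕ} (hw : w < 2 ^ m.a) (he : m.P ≤ e) :
    tab (2 ^ m.a) e (td m t0 w) % (2 ^ m.a) ^ m.P = (m.conf t0).1 := by
  rw [← tab_dig_mod (pow_a_pos m)]
  have h1 : tab (2 ^ m.a) m.P (dig (2 ^ m.a) (tab (2 ^ m.a) e (td m t0 w))) =
      tab (2 ^ m.a) m.P (dig (2 ^ m.a) (m.conf t0).1) := by
    refine tab_congr fun i hi => ?_
    rw [dig_tab (fun i _ => td_lt h hw i) (by omega)]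
    unfold td
    rw [if_pos hi]
  rw [h1]
  exact tab_dig _ _ ((conf_fst_lt h t0).trans_le (pow_s_le h))

theorem rep (h : m.Ok) {t0 w e n : ℕ} (hw : w < 2 ^ m.a) (he : m.P + n < e) :
    m.st (tab (2 ^ m.a) e (td m t0 w)) n = (m.conf (t0 + n)).1 ∧
      ∀ y, m.ct (tab (2 ^ m.a) e (td m t0 w)) y ((m.conf t0).2 y) n = (m.conf (t0 + n)).2 y := by
  refine replay (tab_mod h hw (by omega)) (fun t ht => ?_) n le_rfl
  unfold Mach.vz
  rw [dig_tab (fun i _ => td_lt h hw i) (by omega)]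
  unfold td
  rw [if_neg (by omega), if_neg (by omega)]
  congr 1
  omega

/-- the values of the parallel machine -/
theorem values (h : m.Ok) (hR : m.P + 1 ≤ m.G * m.E) (k : ℕ) : ∀ x < 2 ^ m.σ,
    m.rt.T k x = m.val x (m.conf (k * m.R)).1 ((m.conf (k * m.R)).2 (x / 2)) := by
  induction k with
  | zero =>
    intro x _
    show m.val x m.q0 (m.M0 (x / 2)) % 2 ^ m.a = _
    rw [Nat.mod_eq_of_lt (val_lt h _ _ (h.hM0 _)), zero_mul]
    rfl
  | succ k ih =>
    intro x hx
    set t0 := k * m.R with ht0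
    obtain ⟨w, hwd⟩ : ∃ w, w = m.rt.T k x := ⟨_, rfl⟩
    have hwv : w = m.val x (m.conf t0).1 ((m.conf t0).2 (x / 2)) := by rw [hwd, ih x hx]
    have hw : w < 2 ^ m.a := by
      rw [hwv]
      exact val_lt h _ _ (conf_snd_lt h _ _)
    have hZt : ∀ e, m.rt.Zt (m.rt.T k) x e = tab (2 ^ m.a) e (td m t0 w) := by
      intro e
      induction e with
      | zero => rfl
      | succ e ihe =>
        set Z := tab (2 ^ m.a) e (td m t0 w) with hZ
        have hval : m.dg e Z (m.rt.T k (m.qn x e Z % 2 ^ m.σ)) % 2 ^ m.a = td m t0 w e := by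
          rcases lt_trichotomy e m.P with he | he | he
          · have h1 : m.qn x e Z = 2 * e + 1 := by
              unfold Mach.qn
              rw [show lt01 e m.P = 1 from if_pos he]
              rfl
            have h2 : 2 * e + 1 < 2 ^ m.σ := lt_of_lt_of_le (by omega) (root_lt m).le
            have h3 : ∀ v, m.dg e Z v = v := by
              intro v
              unfold Mach.dg
              rw [show le01 e m.P = 1 from if_pos he.le]
              rfl
            rw [h3, h1, Nat.mod_eq_of_lt h2, ih _ h2, val_odd _ _ he]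
            unfold td
            rw [if_pos he]
            exact Nat.mod_eq_of_lt (dig_lt (pow_a_pos m) _ _)
          · have h1 : m.qn x e Z = x := by
              unfold Mach.qn
              rw [show lt01 e m.P = 0 from if_neg (by omega), show e - m.P = 0 by omega]
              rfl
            have h3 : ∀ v, m.dg e Z v = v := by
              intro v
              unfold Mach.dg
              rw [show le01 e m.P = 1 from if_pos he.le]
              rfl
            rw [h3, h1, Nat.mod_eq_of_lt hx, ← hwd]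
            unfold td
            rw [if_neg (by omega), if_pos he]
            exact Nat.mod_eq_of_lt hw
          · obtain ⟨t, rfl⟩ : ∃ t, e = m.P + 1 + t := ⟨e - m.P - 1, by omega⟩
            obtain ⟨h4, h5⟩ := rep (t0 := t0) (n := t) (e := m.P + 1 + t) h hw (by omega)
            rw [← hZ] at h4 h5
            have h6 : m.P + 1 + t - m.P - 1 = t := by omega
            have h7 : m.P + 1 + t - m.P = t + 1 := by omega
            have h1 : m.qn x (m.P + 1 + t) Z = 2 * m.A (m.conf (t0 + t)).1 := by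
              unfold Mach.qn
              rw [show lt01 (m.P + 1 + t) m.P = 0 from if_neg (by omega), h6, h7, h4]
              rfl
            have h2 := blk_lt m (h.hA (m.conf (t0 + t)).1)
            have h3 : ∀ v, m.dg (m.P + 1 + t) Z v =
                m.ct Z (m.A (m.conf (t0 + t)).1) v t := by
              intro v
              unfold Mach.dg
              rw [show le01 (m.P + 1 + t) m.P = 0 from if_neg (by omega), h6, h4]
              rfl
            rw [h3, h1, Nat.mod_eq_of_lt h2, ih _ h2, val_even _ _ (by omega),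
              Nat.mul_div_cancel_left _ (by norm_num), h5]
            unfold td
            rw [if_neg (by omega), if_neg (by omega), h6]
            exact Nat.mod_eq_of_lt (conf_snd_lt h _ _)
        show m.rt.Zt (m.rt.T k) x e + 2 ^ (m.a * e) *
          (m.dg e (m.rt.Zt (m.rt.T k) x e)
            (m.rt.T k (m.qn x e (m.rt.Zt (m.rt.T k) x e) % 2 ^ m.σ)) % 2 ^ m.a) = _
        rw [ihe, hval, tab_succ, pow_mul, mul_comm (td m t0 w e)]
    set Z := tab (2 ^ m.a) (m.G * m.E) (td m t0 w) with hZ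
    have hlast : m.rt.T (k + 1) x =
        m.val x (m.st Z m.R) (m.ct Z (x / 2) (dig (2 ^ m.a) Z m.P) m.R) % 2 ^ m.a := by
      show m.val x (m.st (m.rt.Zt (m.rt.T k) x (m.G * m.E)) m.R)
        (m.ct (m.rt.Zt (m.rt.T k) x (m.G * m.E)) (x / 2)
          (dig (2 ^ m.a) (m.rt.Zt (m.rt.T k) x (m.G * m.E)) m.P) m.R) % 2 ^ m.a = _
      rw [hZt]
    have hkR : (k + 1) * m.R = t0 + m.R := by
      rw [ht0]
      ring
    have hRd : m.R = m.G * m.E - (m.P + 1) := rfl
    obtain ⟨h4, h5⟩ := rep (t0 := t0) (n := m.R) (e := m.G * m.E) h hw (by omega)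
    rw [← hZ] at h4 h5
    rw [hlast, hkR, h4]
    by_cases hx2 : x % 2 = 0
    · have h8 : dig (2 ^ m.a) Z m.P = (m.conf t0).2 (x / 2) := by
        rw [hZ, dig_tab (fun i _ => td_lt h hw i) (by omega)]
        unfold td
        rw [if_neg (lt_irrefl _), if_pos rfl, hwv, val_even _ _ hx2]
      rw [h8, h5]
      exact Nat.mod_eq_of_lt (val_lt h _ _ (conf_snd_lt h _ _))
    · rw [val_odd_indep _ _ ((m.conf (t0 + m.R)).2 (x / 2)) hx2]
      exact Nat.mod_eq_of_lt (val_lt h _ _ (conf_snd_lt h _ _))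

/-- TRU. -/
theorem tru : TRU_stmt where
  ok := ok
  tr m h := by
    by_cases hR : m.P + 1 ≤ m.G * m.E
    · show m.rt.T m.rt.K (2 * m.P + 1) = _
      rw [values h hR _ _ (root_lt m), val_root]
    · have hK : m.rt.K = 0 := by
        show ifz (le01 (m.P + 1) (m.G * m.E)) 0 m.K = 0
        rw [show le01 (m.P + 1) (m.G * m.E) = 0 from if_neg hR]
        rfl
      rw [hK, zero_mul]
      show m.val (2 * m.P + 1) m.q0 (m.M0 ((2 * m.P + 1) / 2)) % 2 ^ m.a = accN m.q0
      rw [val_root]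
      exact Nat.mod_eq_of_lt ((accN_le _).trans_lt (one_lt_pow h))

end Pool.Agent.Helper86.BR
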